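import Pool.Agent.H32.Dense.EntX

/-!
# Dyadic Markov lemma

`R` is a family of variables indexed by the places of an abelian group, `T` an exact variable. If
every step in the direction `d` costs at most `a` bits, then at most scales `r = 2 ^ m` and at most
places `b` the variables before `b` and the variables after `b` on the segment of length `r` in the
direction `d` are almost independent given the variable at `b` and `T`. No nestedness.
-/

set_option autoImplicit false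

namespace Pool.DM

open Finset Real
open Pool.Agent.H49.Ent Pool.Agent.H32.Dense

variable {Ω Γ Τ P : Type} [AddCommGroup P]

/-- The variables on a segment of length `r` in the direction `d`. -/
def sg (R : P → Ω → Γ) (o d : P) (r : ℕ) (ω : Ω) : Fin (r + 1) → Γ :=
  fun t => R (o + (t : ℕ) • d) ω

variable [Fintype Ω]

/-- The growth on a segment. -/
noncomputable def gr (q : Ω → ℝ) (T : Ω → Τ) (R : P → Ω → Γ) (o d : P) (r : ℕ) : ℝ :=
  CH q (sg R o d r) (fun ω => (R o ω, T ω))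

/-- The information of the two halves of the segment of length `2 r` with the start `o`, given the
middle. -/
noncomputable def mi (q : Ω → ℝ) (T : Ω → Τ) (R : P → Ω → Γ) (o d : P) (r : ℕ) : ℝ :=
  CH q (sg R (o + r • d) d r) (fun ω => (R (o + r • d) ω, T ω)) -
    CH q (sg R (o + r • d) d r) (fun ω => (sg R o d r ω, T ω))

variable {q : Ω → ℝ} {T : Ω → Τ} {R : P → Ω → Γ}

omit [Fintype Ω] in
theorem sg_apply (o d : P) {r t : ℕ} (h : t ≤ r) (ω : Ω) :
    sg R o d r ω ⟨t, Nat.lt_succ_of_le h⟩ = R (o + t • d) ω := rfl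

omit [Fintype Ω] in
/-- The variables on a part of the segment. -/
theorem sg_det (o d : P) {r s t : ℕ} (h : s + t ≤ r) (p : Ω → ℝ) :
    Det p (sg R o d r) (sg R (o + s • d) d t) := by
  intro ω ω' _ _ hh
  funext x
  have hx : s + (x : ℕ) ≤ r := by have := x.2; omega
  have e := congrFun hh ⟨s + x, Nat.lt_succ_of_le hx⟩
  have e2 : o + (s + (x : ℕ)) • d = o + s • d + (x : ℕ) • d := by rw [add_smul, add_assoc]
  simp only [sg] at e ⊢
  rw [e2] at e
  exact e

omit [Fintype Ω] in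
theorem sg_pt (o d : P) {r t : ℕ} (h : t ≤ r) (p : Ω → ℝ) : Det p (sg R o d r) (R (o + t • d)) := by
  intro ω ω' _ _ hh
  exact congrFun hh ⟨t, Nat.lt_succ_of_le h⟩

theorem mi_nonneg (hq : ∀ ω, 0 ≤ q ω) (o d : P) (r : ℕ) : 0 ≤ mi q T R o d r := by
  unfold mi
  have := CH_mono_cond hq (X := sg R (o + r • d) d r) (W' := fun ω => (sg R o d r ω, T ω))
    (W := fun ω => (R (o + r • d) ω, T ω)) (fun ω ω' a b hh => by
      have e := Prod.ext_iff.mp hh
      exact Prod.ext (sg_pt o d le_rfl q ω ω' a b e.1) e.2)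
  linarith

/-- The growth of the long segment. -/
theorem gr_two (hq : ∀ ω, 0 ≤ q ω) (o d : P) (r : ℕ) :
    gr q T R o d (2 * r) + mi q T R o d r = gr q T R o d r + gr q T R (o + r • d) d r := by
  have c1 := CH_chain hq (sg R (o + r • d) d r) (sg R o d r) (fun ω => (R o ω, T ω))
  have c2 : CH q (fun ω => (sg R (o + r • d) d r ω, sg R o d r ω)) (fun ω => (R o ω, T ω)) =
      CH q (sg R o d (2 * r)) (fun ω => (R o ω, T ω)) := by
    refine CH_congr hq ?_ ?_ (fun _ _ _ _ h => h) (fun _ _ _ _ h => h)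
    · intro ω ω' a b hh
      have e1 := Prod.ext_iff.mp (Prod.ext_iff.mp hh).1
      funext x
      rcases Nat.lt_or_ge (x : ℕ) r with hx | hx
      · have e := congrFun e1.2 ⟨x, by omega⟩
        exact e
      · have hx2 := x.2
        have e := congrFun e1.1 ⟨x - r, by omega⟩
        simp only [sg] at e ⊢
        have e2 : o + r • d + ((x : ℕ) - r) • d = o + (x : ℕ) • d := by
          rw [add_assoc, ← add_smul, Nat.add_sub_cancel' hx]
        rw [e2] at e
        exact e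
    · intro ω ω' a b hh
      have e1 := (Prod.ext_iff.mp hh).1
      refine Prod.ext (sg_det o d (by omega) q ω ω' a b e1) ?_
      have := sg_det (R := R) o d (r := 2 * r) (s := 0) (t := r) (by omega) q ω ω' a b e1
      simpa using this
  have c3 : CH q (sg R (o + r • d) d r) (fun ω => (sg R o d r ω, (R o ω, T ω))) =
      CH q (sg R (o + r • d) d r) (fun ω => (sg R o d r ω, T ω)) := by
    refine CH_congr hq ?_ ?_ ?_ ?_
    · intro ω ω' a b hh
      exact (Prod.ext_iff.mp hh).1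
    · intro ω ω' a b hh
      exact (Prod.ext_iff.mp hh).1
    · intro ω ω' a b hh
      have e := Prod.ext_iff.mp hh
      exact Prod.ext e.1 (Prod.ext_iff.mp e.2).2
    · intro ω ω' a b hh
      have e := Prod.ext_iff.mp hh
      refine Prod.ext e.1 (Prod.ext ?_ e.2)
      have := sg_pt (R := R) o d (r := r) (t := 0) (Nat.zero_le _) q ω ω' a b e.1
      simpa using this
  unfold gr mi
  linarith

/-! ### The sum over a dyadic tree -/

/-- The sum of all informations in the dyadic tree of height `m` over the start `o`. -/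
noncomputable def tr (q : Ω → ℝ) (T : Ω → Τ) (R : P → Ω → Γ) (d : P) : ℕ → P → ℝ
  | 0, _ => 0
  | m + 1, o => tr q T R d m o + tr q T R d m (o + 2 ^ m • d) + mi q T R o d (2 ^ m)

theorem tr_eq (hq : ∀ ω, 0 ≤ q ω) (d : P) (m : ℕ) (o : P) :
    gr q T R o d (2 ^ m) + tr q T R d m o = ∑ k ∈ range (2 ^ m), gr q T R (o + k • d) d 1 := by
  induction m generalizing o with
  | zero => simp [tr]
  | succ m ih =>
    have h1 := ih o
    have h2 := ih (o + 2 ^ m • d)
    have h3 := gr_two (T := T) (R := R) hq o d (2 ^ m)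
    have e1 : ∑ k ∈ range (2 ^ (m + 1)), gr q T R (o + k • d) d 1 =
        ∑ k ∈ range (2 ^ m), gr q T R (o + k • d) d 1 +
          ∑ k ∈ range (2 ^ m), gr q T R (o + 2 ^ m • d + k • d) d 1 := by
      rw [pow_succ, mul_two, sum_range_add]
      congr 1
      refine sum_congr rfl fun k _ => ?_
      rw [add_smul, add_assoc]
    rw [e1, ← h1, ← h2, pow_succ, mul_comm (2 ^ m) 2]
    simp only [tr]
    linarith

theorem gr_nonneg (hq : ∀ ω, 0 ≤ q ω) (o d : P) (r : ℕ) : 0 ≤ gr q T R o d r :=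
  CH_nonneg hq _ _

theorem gr_one (hq : ∀ ω, 0 ≤ q ω) (o d : P) :
    gr q T R o d 1 = CH q (R (o + d)) (fun ω => (R o ω, T ω)) := by
  unfold gr
  refine CH_congr hq ?_ ?_ (fun _ _ _ _ h => h) (fun _ _ _ _ h => h)
  · intro ω ω' a b hh
    have := sg_pt (R := R) o d (r := 1) (t := 1) le_rfl q ω ω' a b (Prod.ext_iff.mp hh).1
    simpa using this
  · intro ω ω' a b hh
    have e := Prod.ext_iff.mp hh
    have e2 := (Prod.ext_iff.mp e.2).1
    funext x
    rcases Nat.lt_or_ge (x : ℕ) 1 with hx | hx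
    · have : (x : ℕ) = 0 := by omega
      simpa [sg, this] using e2
    · have : (x : ℕ) = 1 := by have := x.2; omega
      simpa [sg, this] using e.1

/-- **One line.** -/
theorem tr_le (hq : ∀ ω, 0 ≤ q ω) (d : P) (m : ℕ) (o : P) {a : ℝ}
    (h : ∀ k < 2 ^ m, CH q (R (o + k • d + d)) (fun ω => (R (o + k • d) ω, T ω)) ≤ a) :
    tr q T R d m o ≤ 2 ^ m * a := by
  have h1 := tr_eq (T := T) (R := R) hq d m o
  have h2 := gr_nonneg (T := T) (R := R) hq o d (2 ^ m)
  have h3 : ∑ k ∈ range (2 ^ m), gr q T R (o + k • d) d 1 ≤ ∑ k ∈ range (2 ^ m), a := by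
    refine sum_le_sum fun k hk => ?_
    rw [gr_one hq]
    exact h k (mem_range.1 hk)
  rw [sum_const, card_range, nsmul_eq_mul] at h3
  push_cast at h3
  linarith

/-- All starts. -/
theorem tr_sum [DecidableEq P] (hq : ∀ ω, 0 ≤ q ω) (d : P) (m : ℕ) (Q Q' : Finset P)
    (hQ : ∀ b ∈ Q', ∀ k : ℕ, k ≤ 2 ^ m → b - k • d ∈ Q) :
    ∑ l ∈ range m, (2 : ℝ) ^ (m - l - 1) * ∑ b ∈ Q', mi q T R (b - 2 ^ l • d) d (2 ^ l) ≤
      ∑ o ∈ Q, tr q T R d m o := by
  induction m generalizing Q with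
  | zero => simp [tr]
  | succ m ih =>
    have p2 : 2 ^ (m + 1) = 2 ^ m + 2 ^ m := by ring
    have h1 := ih Q (fun b hb k hk => hQ b hb k (by omega))
    have h2 := ih (Q.image fun o => o + 2 ^ m • d) (fun b hb k hk => by
      refine mem_image.2 ⟨b - (k + 2 ^ m) • d, hQ b hb _ (by omega), ?_⟩
      rw [add_smul]
      abel)
    rw [sum_image (fun x _ y _ hxy => add_right_cancel hxy)] at h2
    have h3 : ∑ b ∈ Q', mi q T R (b - 2 ^ m • d) d (2 ^ m) ≤ ∑ o ∈ Q, mi q T R o d (2 ^ m) := by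
      rw [← sum_image (f := fun o => mi q T R o d (2 ^ m)) (g := fun b => b - 2 ^ m • d)
        (s := Q') (fun x _ y _ hxy => sub_left_injective hxy)]
      refine sum_le_sum_of_subset_of_nonneg ?_ fun o _ _ => mi_nonneg hq _ _ _
      intro o ho
      obtain ⟨b, hb, rfl⟩ := mem_image.1 ho
      exact hQ b hb _ (by rw [p2]; exact Nat.le_add_right _ _)
    have e1 : ∑ l ∈ range (m + 1), (2 : ℝ) ^ (m + 1 - l - 1) *
        ∑ b ∈ Q', mi q T R (b - 2 ^ l • d) d (2 ^ l) =
        2 * ∑ l ∈ range m, (2 : ℝ) ^ (m - l - 1) *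
          ∑ b ∈ Q', mi q T R (b - 2 ^ l • d) d (2 ^ l) +
        ∑ b ∈ Q', mi q T R (b - 2 ^ m • d) d (2 ^ m) := by
      rw [sum_range_succ]
      congr 1
      · rw [Finset.mul_sum]
        refine sum_congr rfl fun l hl => ?_
        have hl' := mem_range.1 hl
        have e2 : m + 1 - l - 1 = (m - l - 1) + 1 := by omega
        rw [e2, pow_succ]
        ring
      · have e2 : m + 1 - m - 1 = 0 := by omega
        rw [e2, pow_zero, one_mul]
    rw [e1]
    simp only [tr, sum_add_distrib]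
    linarith

/-- **The dyadic Markov lemma.** Finitely many directions, at the same place and the same scale. -/
theorem dm [DecidableEq P] (hq : ∀ ω, 0 ≤ q ω) (D : Finset P) (m₁ m₂ : ℕ) (hm : 0 < m₂)
    (Q Q' : Finset P) (hQ' : Q'.Nonempty) {c a : ℝ} (hc : (Q.card : ℝ) ≤ c * Q'.card) (ha : 0 ≤ a)
    (hQ : ∀ d ∈ D, ∀ b ∈ Q', ∀ k : ℕ, k ≤ 2 ^ (m₁ + m₂) → b - k • d ∈ Q)
    (h : ∀ d ∈ D, ∀ o ∈ Q, ∀ k < 2 ^ (m₁ + m₂),
      CH q (R (o + k • d + d)) (fun ω => (R (o + k • d) ω, T ω)) ≤ a) :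
    ∃ l, m₁ ≤ l ∧ l < m₁ + m₂ ∧ ∃ b ∈ Q', ∀ d ∈ D,
      mi q T R (b - 2 ^ l • d) d (2 ^ l) ≤ 2 ^ l * (2 * c * D.card * a / m₂) := by
  classical
  obtain ⟨m, hmm⟩ : ∃ m, m = m₁ + m₂ := ⟨_, rfl⟩
  by_contra hcon
  push Not at hcon
  have hcard : (0 : ℝ) < Q'.card := by exact_mod_cast hQ'.card_pos
  have hm0 : (0 : ℝ) < m₂ := by exact_mod_cast hm
  -- the total
  have h1 : ∑ d ∈ D, ∑ l ∈ range m, (2 : ℝ) ^ (m - l - 1) *
      ∑ b ∈ Q', mi q T R (b - 2 ^ l • d) d (2 ^ l) ≤ D.card * (Q.card * (2 ^ m * a)) := by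
    rw [← nsmul_eq_mul, ← sum_const]
    refine sum_le_sum fun d hd => ?_
    refine (tr_sum hq d m Q Q' (fun b hb k hk => hQ d hd b hb k (by rw [← hmm]; exact hk))).trans ?_
    rw [← nsmul_eq_mul, ← sum_const]
    exact sum_le_sum fun o ho => tr_le hq d m o fun k hk => h d hd o ho k (by rw [← hmm]; exact hk)
  -- the lower bound
  have h2 : ∀ l ∈ Ico m₁ m, (2 : ℝ) ^ (m - l - 1) * (Q'.card * (2 ^ l *
      (2 * c * D.card * a / m₂))) < ∑ d ∈ D, (2 : ℝ) ^ (m - l - 1) *
      ∑ b ∈ Q', mi q T R (b - 2 ^ l • d) d (2 ^ l) := by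
    intro l hl
    have hl' := mem_Ico.1 hl
    rw [← mul_sum]
    refine mul_lt_mul_of_pos_left ?_ (by positivity)
    rw [sum_comm, ← nsmul_eq_mul, ← sum_const]
    refine sum_lt_sum_of_nonempty hQ' fun b hb => ?_
    obtain ⟨d, hd, hd2⟩ := hcon l hl'.1 (by rw [← hmm]; exact hl'.2) b hb
    exact hd2.trans_le (single_le_sum (f := fun d => mi q T R (b - 2 ^ l • d) d (2 ^ l))
      (fun d _ => mi_nonneg hq _ _ _) hd)
  have h3 : ∑ l ∈ Ico m₁ m, (2 : ℝ) ^ (m - l - 1) * (Q'.card * (2 ^ l *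
      (2 * c * D.card * a / m₂))) < ∑ l ∈ Ico m₁ m, ∑ d ∈ D, (2 : ℝ) ^ (m - l - 1) *
      ∑ b ∈ Q', mi q T R (b - 2 ^ l • d) d (2 ^ l) := by
    refine sum_lt_sum_of_nonempty ⟨m₁, mem_Ico.2 ⟨le_rfl, by omega⟩⟩ h2
  have h4 : ∑ l ∈ Ico m₁ m, ∑ d ∈ D, (2 : ℝ) ^ (m - l - 1) *
      ∑ b ∈ Q', mi q T R (b - 2 ^ l • d) d (2 ^ l) ≤ ∑ l ∈ range m, ∑ d ∈ D,
      (2 : ℝ) ^ (m - l - 1) * ∑ b ∈ Q', mi q T R (b - 2 ^ l • d) d (2 ^ l) := by
    refine sum_le_sum_of_subset_of_nonneg (fun l hl => mem_range.2 (mem_Ico.1 hl).2) ?_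
    intro l _ _
    exact sum_nonneg fun d _ => mul_nonneg (by positivity) (sum_nonneg fun b _ =>
      mi_nonneg hq _ _ _)
  rw [sum_comm] at h1
  have h5 : ∑ l ∈ Ico m₁ m, (2 : ℝ) ^ (m - l - 1) * (Q'.card * (2 ^ l *
      (2 * c * D.card * a / m₂))) = m₂ * (2 ^ m / 2 * (Q'.card * (2 * c * D.card * a / m₂))) := by
    have e : ∀ l ∈ Ico m₁ m, (2 : ℝ) ^ (m - l - 1) * (Q'.card * (2 ^ l *
        (2 * c * D.card * a / m₂))) = 2 ^ m / 2 * (Q'.card * (2 * c * D.card * a / m₂)) := by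
      intro l hl
      have hl' := mem_Ico.1 hl
      have e2 : (2 : ℝ) ^ m = 2 ^ (m - l - 1) * 2 ^ l * 2 := by
        rw [← pow_add, ← pow_succ]
        congr 1
        omega
      rw [e2]
      ring
    rw [sum_congr rfl e, sum_const, Nat.card_Ico, nsmul_eq_mul, hmm]
    simp
  have h6 : m₂ * (2 ^ m / 2 * (Q'.card * (2 * c * D.card * a / m₂))) =
      D.card * (c * Q'.card * (2 ^ m * a)) := by
    field_simp
  have h7 : (D.card : ℝ) * (Q.card * (2 ^ m * a)) ≤ D.card * (c * Q'.card * (2 ^ m * a)) := by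
    refine mul_le_mul_of_nonneg_left ?_ (Nat.cast_nonneg _)
    exact mul_le_mul_of_nonneg_right hc (by positivity)
  rw [h5, h6] at h3
  linarith

/-! ### Use -/

/-- The independence. `X` is known on the left, `Y` on the right. -/
theorem use {S₁ S₂ : Type} (hq : ∀ ω, 0 ≤ q ω) {b d : P} {r : ℕ} {X : Ω → S₁} {Y : Ω → S₂}
    {e₁ e₂ : ℝ} (h1 : CH q X (fun ω => (sg R (b - r • d) d r ω, T ω)) ≤ e₁)
    (h2 : CH q Y (fun ω => (sg R b d r ω, T ω)) ≤ e₂) :
    CH q X (fun ω => (R b ω, T ω)) ≤ CH q X (fun ω => (Y ω, (R b ω, T ω))) +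
      (mi q T R (b - r • d) d r + e₁ + e₂) := by
  have eb : b - r • d + r • d = b := sub_add_cancel _ _
  unfold mi
  rw [eb]
  set A := sg R (b - r • d) d r with hA
  set B := sg R b d r with hB
  have dA : Det q A (R b) := by
    intro ω ω' a c hh
    have := sg_pt (R := R) (b - r • d) d (r := r) (t := r) le_rfl q ω ω' a c hh
    rw [eb] at this
    exact this
  have dB : Det q B (R b) := by
    intro ω ω' a c hh
    have := sg_pt (R := R) b d (r := r) (t := 0) (Nat.zero_le _) q ω ω' a c hh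
    simpa using this
  -- I(X ; Y) <= I(X ; B) + e₂
  have s1 := CH_le_add hq X Y (fun ω => (B ω, T ω))
  have s2 : CH q X (fun ω => (Y ω, (B ω, T ω))) ≤ CH q X (fun ω => (Y ω, (R b ω, T ω))) :=
    CH_mono_cond hq fun ω ω' a c hh => by
      have e := Prod.ext_iff.mp hh
      have e2 := Prod.ext_iff.mp e.2
      exact Prod.ext e.1 (Prod.ext (dB ω ω' a c e2.1) e2.2)
  -- I(X ; B) <= I(A ; B) + e₁
  have s3 := CH_chain hq B X (fun ω => (R b ω, T ω))
  have s4 := CH_chain hq X B (fun ω => (R b ω, T ω))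
  have s5 : CH q (fun ω => (B ω, X ω)) (fun ω => (R b ω, T ω)) =
      CH q (fun ω => (X ω, B ω)) (fun ω => (R b ω, T ω)) := by
    refine CH_congr hq ?_ ?_ (fun _ _ _ _ h => h) (fun _ _ _ _ h => h) <;>
    · intro ω ω' _ _ hh
      simp only [Prod.mk.injEq] at hh ⊢
      tauto
  have s6 : CH q X (fun ω => (B ω, (R b ω, T ω))) = CH q X (fun ω => (B ω, T ω)) := by
    refine CH_congr hq ?_ ?_ ?_ ?_
    · intro ω ω' _ _ hh
      exact (Prod.ext_iff.mp hh).1
    · intro ω ω' _ _ hh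
      exact (Prod.ext_iff.mp hh).1
    · intro ω ω' _ _ hh
      have e := Prod.ext_iff.mp hh
      exact Prod.ext e.1 (Prod.ext_iff.mp e.2).2
    · intro ω ω' a c hh
      have e := Prod.ext_iff.mp hh
      exact Prod.ext e.1 (Prod.ext (dB ω ω' a c e.1) e.2)
  -- B given A is at least B given A, X
  have s7 : CH q B (fun ω => (A ω, T ω)) ≤ CH q B (fun ω => (X ω, (R b ω, T ω))) + e₁ := by
    have t1 := CH_chain hq B X (fun ω => (A ω, T ω))
    have t2 := CH_chain hq X B (fun ω => (A ω, T ω))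
    have t3 : CH q (fun ω => (B ω, X ω)) (fun ω => (A ω, T ω)) =
        CH q (fun ω => (X ω, B ω)) (fun ω => (A ω, T ω)) := by
      refine CH_congr hq ?_ ?_ (fun _ _ _ _ h => h) (fun _ _ _ _ h => h) <;>
      · intro ω ω' _ _ hh
        simp only [Prod.mk.injEq] at hh ⊢
        tauto
    have t4 : CH q B (fun ω => (X ω, (A ω, T ω))) ≤ CH q B (fun ω => (X ω, (R b ω, T ω))) :=
      CH_mono_cond hq fun ω ω' a c hh => by
        have e := Prod.ext_iff.mp hh
        have e2 := Prod.ext_iff.mp e.2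
        exact Prod.ext e.1 (Prod.ext (dA ω ω' a c e2.1) e2.2)
    have t5 := CH_nonneg hq X (fun ω => (B ω, (A ω, T ω)))
    linarith
  linarith

end Pool.DM
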