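import Pool.Agent.H7.GEN.Dm

/-!
# Dyadic Markov lemma at several places

As `dm`, for finitely many pairs (offset, direction): the offsets are multiplied with the scale.
-/

set_option autoImplicit false

namespace Pool.DM

open Finset Real
open Pool.Agent.H49.Ent Pool.Agent.H32.Dense

variable {Ω Γ Τ P : Type} [AddCommGroup P] [Fintype Ω]
variable {q : Ω → ℝ} {T : Ω → Τ} {R : P → Ω → Γ}

/-- **The dyadic Markov lemma** for finitely many offsets and directions. -/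
theorem dmo [DecidableEq P] (hq : ∀ ω, 0 ≤ q ω) (D : Finset (P × P)) (m₁ m₂ : ℕ) (hm : 0 < m₂)
    (Q Q₁ Q' : Finset P) (hQ' : Q'.Nonempty) {c a : ℝ} (hc : (Q.card : ℝ) ≤ c * Q'.card)
    (ha : 0 ≤ a) (hQ1 : ∀ x ∈ D, ∀ b ∈ Q', ∀ l : ℕ, l < m₁ + m₂ → b + 2 ^ l • x.1 ∈ Q₁)
    (hQ : ∀ x ∈ D, ∀ b ∈ Q₁, ∀ k : ℕ, k ≤ 2 ^ (m₁ + m₂) → b - k • x.2 ∈ Q)
    (h : ∀ x ∈ D, ∀ o ∈ Q, ∀ k < 2 ^ (m₁ + m₂),
      CH q (R (o + k • x.2 + x.2)) (fun ω => (R (o + k • x.2) ω, T ω)) ≤ a) :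
    ∃ l, m₁ ≤ l ∧ l < m₁ + m₂ ∧ ∃ b ∈ Q', ∀ x ∈ D,
      mi q T R (b + 2 ^ l • x.1 - 2 ^ l • x.2) x.2 (2 ^ l) ≤
        2 ^ l * (2 * c * D.card * a / m₂) := by
  classical
  obtain ⟨m, hmm⟩ : ∃ m, m = m₁ + m₂ := ⟨_, rfl⟩
  by_contra hcon
  push Not at hcon
  have hcard : (0 : ℝ) < Q'.card := by exact_mod_cast hQ'.card_pos
  have hm0 : (0 : ℝ) < m₂ := by exact_mod_cast hm
  -- shifts
  have sh : ∀ x ∈ D, ∀ l < m, ∑ b ∈ Q', mi q T R (b + 2 ^ l • x.1 - 2 ^ l • x.2) x.2 (2 ^ l) ≤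
      ∑ b ∈ Q₁, mi q T R (b - 2 ^ l • x.2) x.2 (2 ^ l) := by
    intro x hx l hl
    rw [← sum_image (f := fun o => mi q T R (o - 2 ^ l • x.2) x.2 (2 ^ l))
      (g := fun b => b + 2 ^ l • x.1) (s := Q') (fun x _ y _ hxy => add_left_injective _ hxy)]
    refine sum_le_sum_of_subset_of_nonneg ?_ fun o _ _ => mi_nonneg hq _ _ _
    intro o ho
    obtain ⟨b, hb, rfl⟩ := mem_image.1 ho
    exact hQ1 x hx b hb l (by omega)
  -- the total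
  have h1 : ∑ x ∈ D, ∑ l ∈ range m, (2 : ℝ) ^ (m - l - 1) *
      ∑ b ∈ Q', mi q T R (b + 2 ^ l • x.1 - 2 ^ l • x.2) x.2 (2 ^ l) ≤
      D.card * (Q.card * (2 ^ m * a)) := by
    rw [← nsmul_eq_mul, ← sum_const]
    refine sum_le_sum fun x hx => ?_
    have s1 : ∑ l ∈ range m, (2 : ℝ) ^ (m - l - 1) *
        ∑ b ∈ Q', mi q T R (b + 2 ^ l • x.1 - 2 ^ l • x.2) x.2 (2 ^ l) ≤
        ∑ l ∈ range m, (2 : ℝ) ^ (m - l - 1) *
        ∑ b ∈ Q₁, mi q T R (b - 2 ^ l • x.2) x.2 (2 ^ l) :=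
      sum_le_sum fun l hl =>
        mul_le_mul_of_nonneg_left (sh x hx l (mem_range.1 hl)) (by positivity)
    refine s1.trans ((tr_sum hq x.2 m Q Q₁ (fun b hb k hk =>
      hQ x hx b hb k (by rw [← hmm]; exact hk))).trans ?_)
    rw [← nsmul_eq_mul, ← sum_const]
    exact sum_le_sum fun o ho => tr_le hq x.2 m o fun k hk =>
      h x hx o ho k (by rw [← hmm]; exact hk)
  -- the lower bound
  have h2 : ∀ l ∈ Ico m₁ m, (2 : ℝ) ^ (m - l - 1) * (Q'.card * (2 ^ l *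
      (2 * c * D.card * a / m₂))) < ∑ x ∈ D, (2 : ℝ) ^ (m - l - 1) *
      ∑ b ∈ Q', mi q T R (b + 2 ^ l • x.1 - 2 ^ l • x.2) x.2 (2 ^ l) := by
    intro l hl
    have hl' := mem_Ico.1 hl
    rw [← mul_sum]
    refine mul_lt_mul_of_pos_left ?_ (by positivity)
    rw [sum_comm, ← nsmul_eq_mul, ← sum_const]
    refine sum_lt_sum_of_nonempty hQ' fun b hb => ?_
    obtain ⟨x, hx, hx2⟩ := hcon l hl'.1 (by rw [← hmm]; exact hl'.2) b hb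
    exact hx2.trans_le (single_le_sum
      (f := fun x : P × P => mi q T R (b + 2 ^ l • x.1 - 2 ^ l • x.2) x.2 (2 ^ l))
      (fun x _ => mi_nonneg hq _ _ _) hx)
  have h3 : ∑ l ∈ Ico m₁ m, (2 : ℝ) ^ (m - l - 1) * (Q'.card * (2 ^ l *
      (2 * c * D.card * a / m₂))) < ∑ l ∈ Ico m₁ m, ∑ x ∈ D, (2 : ℝ) ^ (m - l - 1) *
      ∑ b ∈ Q', mi q T R (b + 2 ^ l • x.1 - 2 ^ l • x.2) x.2 (2 ^ l) := by
    refine sum_lt_sum_of_nonempty ⟨m₁, mem_Ico.2 ⟨le_rfl, by omega⟩⟩ h2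
  have h4 : ∑ l ∈ Ico m₁ m, ∑ x ∈ D, (2 : ℝ) ^ (m - l - 1) *
      ∑ b ∈ Q', mi q T R (b + 2 ^ l • x.1 - 2 ^ l • x.2) x.2 (2 ^ l) ≤
      ∑ l ∈ range m, ∑ x ∈ D, (2 : ℝ) ^ (m - l - 1) *
      ∑ b ∈ Q', mi q T R (b + 2 ^ l • x.1 - 2 ^ l • x.2) x.2 (2 ^ l) := by
    refine sum_le_sum_of_subset_of_nonneg (fun l hl => mem_range.2 (mem_Ico.1 hl).2) ?_
    intro l _ _
    exact sum_nonneg fun x _ => mul_nonneg (by positivity) (sum_nonneg fun b _ =>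
      mi_nonneg hq _ _ _)
  rw [sum_comm] at h1
  have h5 : ∑ l ∈ Ico m₁ m, (2 : ℝ) ^ (m - l - 1) * (Q'.card * (2 ^ l *
      (2 * c * D.card * a / m₂))) = m₂ * (2 ^ m / 2 * (Q'.card * (2 * c * D.card * a / m₂))) := by
    have e : ∀ l ∈ Ico m₁ m, (2 : ℝ) ^ (m - l - 1) * (Q'.card * (2 ^ l *
        (2 * c * D.card * a / m₂))) = 2 ^ m / 2 * (Q'.card * (2 * c * D.card * a / m₂)) := by
      intro l hl
      have hl' := mem_Ico.1 hl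
      have e2 : (2 : ℝ) ^ m = 2 ^ (m - l - 1) * 2 ^ l * 2 := by
        rw [← pow_add, ← pow_succ]
        congr 1
        omega
      rw [e2]
      ring
    rw [sum_congr rfl e, sum_const, Nat.card_Ico, nsmul_eq_mul, hmm]
    simp
  have h6 : m₂ * (2 ^ m / 2 * (Q'.card * (2 * c * D.card * a / m₂))) =
      D.card * (c * Q'.card * (2 ^ m * a)) := by
    field_simp
  have h7 : (D.card : ℝ) * (Q.card * (2 ^ m * a)) ≤ D.card * (c * Q'.card * (2 ^ m * a)) := by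
    refine mul_le_mul_of_nonneg_left ?_ (Nat.cast_nonneg _)
    exact mul_le_mul_of_nonneg_right hc (by positivity)
  rw [h5, h6] at h3
  linarith

end Pool.DM
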