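import Mathlib

/-!
# Level lines

`h` is a monotone submodular Lipschitz function of integer levels (the entropy of finitely many
digit strings, as a function of the numbers of digits). On a two dimensional affine family of level
vectors the blocks of the groups of coordinates with different rays are nearly independent at most
points.
-/

set_option autoImplicit false

namespace Pool.LL7

open Finset

variable {ι : Type*} [Fintype ι] [DecidableEq ι]

/-- Monotone, submodular, Lipschitz. -/
structure Sbm (h : (ι → ℤ) → ℝ) (L : ℝ) : Prop where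
  mono : ∀ u v : ι → ℤ, u ≤ v → h u ≤ h v
  sub : ∀ u v : ι → ℤ, h (u ⊔ v) + h (u ⊓ v) ≤ h u + h v
  lip : ∀ u v : ι → ℤ, u ≤ v → h v ≤ h u + L * ∑ i, ((v i - u i : ℤ) : ℝ)

/-- The mutual information of the blocks `a` and `b` after the level vector `v`. -/
def mi (h : (ι → ℤ) → ℝ) (v a b : ι → ℤ) : ℝ := h (v + a) + h (v + b) - h (v + a + b) - h v

variable {h : (ι → ℤ) → ℝ} {L : ℝ}

theorem mi_nonneg (S : Sbm h L) {v a b : ι → ℤ} (ha : 0 ≤ a) (hb : 0 ≤ b)
    (hab : ∀ i, a i = 0 ∨ b i = 0) : 0 ≤ mi h v a b := by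
  have h1 := S.sub (v + a) (v + b)
  have e1 : (v + a) ⊔ (v + b) = v + a + b := by
    funext i
    have h2 := ha i
    have h3 := hb i
    simp only [Pi.sup_apply, Pi.add_apply, Pi.zero_apply] at *
    rcases hab i with h4 | h4
    · rw [h4, add_zero]
      exact sup_eq_right.2 (by linarith)
    · rw [h4, add_zero, add_zero]
      exact sup_eq_left.2 (by linarith)
  have e2 : (v + a) ⊓ (v + b) = v := by
    funext i
    have h2 := ha i
    have h3 := hb i
    simp only [Pi.inf_apply, Pi.add_apply, Pi.zero_apply] at *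
    rcases hab i with h4 | h4
    · rw [h4, add_zero]
      exact inf_eq_left.2 (by linarith)
    · rw [h4, add_zero]
      exact inf_eq_right.2 (by linarith)
  rw [e1, e2] at h1
  unfold mi
  linarith

theorem mi_add (h : (ι → ℤ) → ℝ) (v a c b : ι → ℤ) :
    mi h v (a + c) b = mi h v a b + mi h (v + a) c b := by
  unfold mi
  simp only [← add_assoc]
  have e : v + a + b + c = v + a + c + b := by
    rw [add_right_comm]
  ring

theorem mi_comm (h : (ι → ℤ) → ℝ) (v a b : ι → ℤ) : mi h v a b = mi h v b a := by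
  unfold mi
  rw [add_right_comm v a b]
  ring

theorem mi_mono (S : Sbm h L) {v a a' b : ι → ℤ} (haa : a ≤ a') (ha : 0 ≤ a) (hb : 0 ≤ b)
    (hab : ∀ i, a' i = 0 ∨ b i = 0) : mi h v a b ≤ mi h v a' b := by
  have e : a' = a + (a' - a) := by abel
  have h1 : mi h v a' b = mi h v a b + mi h (v + a) (a' - a) b := by
    conv_lhs => rw [e]
    exact mi_add h v a (a' - a) b
  have h2 : 0 ≤ mi h (v + a) (a' - a) b := by
    refine mi_nonneg S (sub_nonneg.2 haa) hb fun i => ?_
    rcases hab i with h3 | h3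
    · left
      have h4 := haa i
      have h5 := ha i
      simp only [Pi.sub_apply, Pi.zero_apply] at *
      omega
    · exact Or.inr h3
  linarith

theorem mi_mono_right (S : Sbm h L) {v a b b' : ι → ℤ} (hbb : b ≤ b') (ha : 0 ≤ a) (hb : 0 ≤ b)
    (hab : ∀ i, a i = 0 ∨ b' i = 0) : mi h v a b ≤ mi h v a b' := by
  rw [mi_comm h v a b, mi_comm h v a b']
  exact mi_mono S hbb hb ha fun i => (hab i).symm

/-- **The telescope.** -/
theorem tele (S : Sbm h L) (u : ℕ → ι → ℤ) {a b : ι → ℤ} (ha : 0 ≤ a) (hb : 0 ≤ b)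
    (hu : ∀ k, u k + b ≤ u (k + 1)) (hs : ∀ k i, a i = 0 ∨ u (k + 1) i = u k i) (N : ℕ) :
    ∑ k ∈ range N, mi h (u k) a b ≤
      (h (u 0 + a) - h (u 0)) - (h (u N + a) - h (u N)) := by
  induction N with
  | zero => simp
  | succ N ih =>
    rw [sum_range_succ]
    have h1 : mi h (u N) a b ≤ mi h (u N) a (u (N + 1) - u N) := by
      refine mi_mono_right S ?_ ha hb fun i => ?_
      · intro i
        have := hu N i
        simp only [Pi.add_apply, Pi.sub_apply] at *
        linarith
      · rcases hs N i with h2 | h2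
        · exact Or.inl h2
        · right
          simp [h2]
    have h2 : mi h (u N) a (u (N + 1) - u N) =
        (h (u N + a) - h (u N)) - (h (u (N + 1) + a) - h (u (N + 1))) := by
      unfold mi
      have e1 : u N + (u (N + 1) - u N) = u (N + 1) := by abel
      have e2 : u N + a + (u (N + 1) - u N) = u (N + 1) + a := by abel
      rw [e1, e2]
      ring
    linarith

theorem close (S : Sbm h L) (hL : 0 ≤ L) (u v : ι → ℤ) :
    h u ≤ h v + L * ∑ i, |((u i - v i : ℤ) : ℝ)| := by
  have h1 := S.mono u (u ⊔ v) le_sup_left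
  have h2 := S.lip v (u ⊔ v) le_sup_right
  have h3 : ∑ i, (((u ⊔ v) i - v i : ℤ) : ℝ) ≤ ∑ i, |((u i - v i : ℤ) : ℝ)| := by
    refine sum_le_sum fun i _ => ?_
    have h4 : (u ⊔ v) i - v i ≤ |u i - v i| := by
      simp only [Pi.sup_apply]
      rcases le_total (u i) (v i) with h5 | h5
      · rw [sup_eq_right.2 h5]
        simp
      · rw [sup_eq_left.2 h5]
        exact le_abs_self _
    calc (((u ⊔ v) i - v i : ℤ) : ℝ) ≤ ((|u i - v i| : ℤ) : ℝ) := by exact_mod_cast h4
      _ = |((u i - v i : ℤ) : ℝ)| := by push_cast; rfl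
  have h6 := mul_le_mul_of_nonneg_left h3 hL
  linarith

theorem mi_close (S : Sbm h L) (hL : 0 ≤ L) {u v : ι → ℤ} {C : ℝ}
    (hC : ∀ i, |((u i - v i : ℤ) : ℝ)| ≤ C) (a b : ι → ℤ) :
    mi h u a b ≤ mi h v a b + 4 * (L * (Fintype.card ι * C)) := by
  have hs : ∀ w : ι → ℤ, ∑ i, |(((u + w) i - (v + w) i : ℤ) : ℝ)| ≤ Fintype.card ι * C := by
    intro w
    calc ∑ i, |(((u + w) i - (v + w) i : ℤ) : ℝ)| ≤ ∑ _i : ι, C := by
          refine sum_le_sum fun i _ => ?_
          have e : (u + w) i - (v + w) i = u i - v i := by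
            simp
          rw [e]
          exact hC i
      _ = Fintype.card ι * C := by
          rw [sum_const, card_univ, nsmul_eq_mul]
  have hs' : ∀ w : ι → ℤ, ∑ i, |(((v + w) i - (u + w) i : ℤ) : ℝ)| ≤ Fintype.card ι * C := by
    intro w
    refine le_trans (le_of_eq ?_) (hs w)
    refine sum_congr rfl fun i _ => ?_
    push_cast
    rw [abs_sub_comm]
  have h1 := close S hL (u + a) (v + a)
  have h2 := close S hL (u + b) (v + b)
  have h3 := close S hL (v + a + b) (u + a + b)
  have h4 := close S hL v u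
  have e1 := mul_le_mul_of_nonneg_left (hs a) hL
  have e2 := mul_le_mul_of_nonneg_left (hs b) hL
  have e3 := mul_le_mul_of_nonneg_left (hs' (a + b)) hL
  have e4 := mul_le_mul_of_nonneg_left (hs' 0) hL
  simp only [← add_assoc] at e3
  simp only [add_zero] at e4
  unfold mi
  linarith

end Pool.LL7
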