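import Pool.Agent.H7.GEN.Llf

/-!
# Level lines in a cell

The levels are affine on a square up to a small error. For every call (a set of digits of small
slopes, two block lengths) all but few points of a grid in the square have a small mutual
information; finitely many calls have a common good point.
-/

set_option autoImplicit false
set_option linter.unusedSectionVars false
set_option linter.unusedVariables false

namespace Pool.GEN.LLF

open Finset Real
open Pool.Agent.H49.Ent Pool.Agent.H32.Dense Pool.GEN.LL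

variable {ι : Type} [Fintype ι] [DecidableEq ι]

/-- The mutual information is nonnegative. -/
theorem gm_nonneg {Ω : Type*} [Fintype Ω] {S U : Type*} {p : Ω → ℝ} {D : ι → ℕ → Ω → S}
    {W : Ω → U} {b : ℝ} (hp : ∀ ω, 0 ≤ p ω) (H : Nst p D b) {J : ℝ} (hJ : 0 ≤ J) (L : ι → ℝ)
    (B : Finset ι) {x y : ℝ} (hx : 0 ≤ x) (hy : 0 ≤ y) :
    0 ≤ gm (gk p D W) J L (blk B y) (blk Bᶜ x) := by
  have h := gk_sub (W := W) hp H (fl J 0 (L + blk B y)) (fl J 0 (L + blk Bᶜ x))
  rw [← fl_blk J hJ L B hx hy, ← fl_inf J 0 hJ] at h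
  have e : (L + blk B y) ⊓ (L + blk Bᶜ x) = L := by
    funext i
    simp only [Pi.add_apply, Pi.inf_apply, blk, Finset.mem_compl]
    by_cases hi : i ∈ B
    · simp only [hi, if_true, not_true, if_false, add_zero]
      exact inf_of_le_right (by linarith)
    · simp only [hi, if_false, not_false_iff, if_true, add_zero]
      exact inf_of_le_left (by linarith)
  rw [e] at h
  unfold gm
  linarith

/-- Change of the levels. -/
theorem gm_pert {Ω : Type*} [Fintype Ω] {S U : Type*} {p : Ω → ℝ} {D : ι → ℕ → Ω → S} {W : Ω → U}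
    {b : ℝ} (hp : ∀ ω, 0 ≤ p ω) (H : Nst p D b) (hb : 0 ≤ b) {J : ℝ} (hJ : 0 ≤ J)
    (L M α β : ι → ℝ) {ε : ℝ} (hε : ∀ i, |L i - M i| ≤ ε) :
    gm (gk p D W) J L α β ≤ gm (gk p D W) J M α β +
      4 * (b * (Fintype.card ι * (ε * J + 1))) := by
  have key : ∀ L M : ι → ℝ, (∀ i, |L i - M i| ≤ ε) →
      gk p D W (fl J 0 L) ≤ gk p D W (fl J 0 M) + b * (Fintype.card ι * (ε * J + 1)) := by
    intro L M h
    have h1 := gk_mono (W := W) hp H (le_sup_left : fl J 0 L ≤ fl J 0 L ⊔ fl J 0 M)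
    have h2 := gk_lip (W := W) hp H (le_sup_right : fl J 0 M ≤ fl J 0 L ⊔ fl J 0 M)
    have h3 : ∑ i, (((fl J 0 L ⊔ fl J 0 M) i : ℝ) - (fl J 0 M i : ℝ)) ≤
        Fintype.card ι * (ε * J + 1) := by
      refine (Finset.sum_le_card_nsmul _ _ (ε * J + 1) fun i _ => ?_).trans ?_
      · have h4 := h i
        have h5 := abs_le.1 h4
        have hε0 : 0 ≤ ε := (abs_nonneg _).trans h4
        have h6 : L i * J ≤ M i * J + ε * J := by nlinarith
        have h7 : (fl J 0 L i : ℝ) ≤ (fl J 0 M i : ℝ) + ε * J + 1 := by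
          change ((⌊L i * J + 0⌋₊ : ℕ) : ℝ) ≤ ((⌊M i * J + 0⌋₊ : ℕ) : ℝ) + ε * J + 1
          rcases le_or_gt 0 (L i * J + 0) with h0 | h0
          · have a1 := Nat.floor_le h0
            have a2 := (Nat.lt_floor_add_one (M i * J + 0)).le
            linarith
          · rw [Nat.floor_of_nonpos h0.le]
            have a2 : (0 : ℝ) ≤ ((⌊M i * J + 0⌋₊ : ℕ) : ℝ) := Nat.cast_nonneg _
            push_cast
            nlinarith
        have h8 : (((fl J 0 L ⊔ fl J 0 M) i : ℕ) : ℝ) ≤ (fl J 0 M i : ℝ) + ε * J + 1 := by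
          rcases le_total (fl J 0 L i) (fl J 0 M i) with h9 | h9
          · rw [Pi.sup_apply, sup_of_le_right h9]
            have : 0 ≤ ε * J := mul_nonneg hε0 hJ
            linarith
          · rw [Pi.sup_apply, sup_of_le_left h9]
            exact h7
        linarith
      · rw [nsmul_eq_mul, Finset.card_univ]
    have h4 := mul_le_mul_of_nonneg_left h3 hb
    linarith
  have e1 := key (L + α) (M + α) fun i => by
    have : (L + α) i - (M + α) i = L i - M i := by simp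
    rw [this]
    exact hε i
  have e2 := key (L + β) (M + β) fun i => by
    have : (L + β) i - (M + β) i = L i - M i := by simp
    rw [this]
    exact hε i
  have e3 := key (M + α + β) (L + α + β) fun i => by
    have : (M + α + β) i - (L + α + β) i = M i - L i := by simp
    rw [this, abs_sub_comm]
    exact hε i
  have e4 := key M L fun i => by
    rw [abs_sub_comm]
    exact hε i
  unfold gm
  linarith

/-- **Level lines in a cell.** -/
theorem llc (c u : ι → ℝ) (hc : ∀ i, 0 < c i) (B : Finset ι)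
    (hB : ∀ i ∈ B, ∀ j, j ∉ B → u i < u j) (b : ℝ) (hb : 0 ≤ b) : ∃ C : ℝ, 0 ≤ C ∧
      ∀ (Ω S U : Type) [Fintype Ω] (p : Ω → ℝ) (D : ι → ℕ → Ω → S) (W : Ω → U),
        (∀ ω, 0 ≤ p ω) → Nst p D b → ∀ J : ℝ, 0 < J → ∀ (a : ι → ℝ) (s₀ t₀ d x y ε : ℝ), 0 < d →
        0 < x → x ≤ y → 0 ≤ ε → ∀ n : ℕ, 0 < n → ∀ L : ℕ → ℕ → ι → ℝ,
        (∀ k < n, ∀ l < n, ∀ i, |L k l i - lv a c u (s₀ + d * ((k : ℝ) / n))
          (t₀ + d * ((l : ℝ) / n)) i| ≤ ε) →
        (1 / (n : ℝ)) * ∑ k ∈ Finset.range n, (1 / (n : ℝ)) * ∑ l ∈ Finset.range n,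
          gm (gk p D W) J (L k l) (blk B y) (blk Bᶜ x) ≤
          C * (x * (y / d) ^ ((1 / 2 : ℝ) ^ B.card) + d / n + ε) * J + C := by
  obtain ⟨C, hC, h⟩ := llf c u hc B hB b hb
  refine ⟨C + 4 * (b * Fintype.card ι), by positivity, ?_⟩
  intro Ω S U _ p D W hp H J hJ a s₀ t₀ d x y ε hd hx hxy hε n hn L hL
  have h1 := h Ω S U p D W hp H J hJ a s₀ t₀ d x y hd hx hxy n hn
  have hn' : (0 : ℝ) < n := by exact_mod_cast hn
  have h2 : (1 / (n : ℝ)) * ∑ k ∈ Finset.range n, (1 / (n : ℝ)) * ∑ l ∈ Finset.range n,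
      gm (gk p D W) J (L k l) (blk B y) (blk Bᶜ x) ≤
      (1 / (n : ℝ)) * ∑ k ∈ Finset.range n, (1 / (n : ℝ)) * ∑ l ∈ Finset.range n,
        gm (gk p D W) J (lv a c u (s₀ + d * ((k : ℝ) / n)) (t₀ + d * ((l : ℝ) / n)))
          (blk B y) (blk Bᶜ x) + 4 * (b * (Fintype.card ι * (ε * J + 1))) := by
    have h3 : ∀ k ∈ Finset.range n, (1 / (n : ℝ)) * ∑ l ∈ Finset.range n,
        gm (gk p D W) J (L k l) (blk B y) (blk Bᶜ x) ≤
        (1 / (n : ℝ)) * ∑ l ∈ Finset.range n,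
          gm (gk p D W) J (lv a c u (s₀ + d * ((k : ℝ) / n)) (t₀ + d * ((l : ℝ) / n)))
            (blk B y) (blk Bᶜ x) + 4 * (b * (Fintype.card ι * (ε * J + 1))) := by
      intro k hk
      have h4 := Finset.sum_le_sum fun l (hl : l ∈ Finset.range n) =>
        gm_pert (W := W) hp H hb hJ.le (L k l) (lv a c u (s₀ + d * ((k : ℝ) / n))
          (t₀ + d * ((l : ℝ) / n))) (blk B y) (blk Bᶜ x) (ε := ε)
          (hL k (Finset.mem_range.1 hk) l (Finset.mem_range.1 hl))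
      rw [Finset.sum_add_distrib, Finset.sum_const, Finset.card_range, nsmul_eq_mul] at h4
      have h5 := mul_le_mul_of_nonneg_left h4 (by positivity : (0 : ℝ) ≤ 1 / n)
      rw [mul_add] at h5
      refine h5.trans (le_of_eq ?_)
      congr 1
      field_simp
    have h4 := Finset.sum_le_sum h3
    rw [Finset.sum_add_distrib, Finset.sum_const, Finset.card_range, nsmul_eq_mul] at h4
    have h5 := mul_le_mul_of_nonneg_left h4 (by positivity : (0 : ℝ) ≤ 1 / n)
    rw [mul_add] at h5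
    refine h5.trans (le_of_eq ?_)
    congr 1
    field_simp
  have e : (C + 4 * (b * Fintype.card ι)) * (x * (y / d) ^ ((1 / 2 : ℝ) ^ B.card) + d / n + ε) * J +
      (C + 4 * (b * Fintype.card ι)) =
      (C * (x * (y / d) ^ ((1 / 2 : ℝ) ^ B.card) + d / n) * J + C) +
        4 * (b * (Fintype.card ι * (ε * J + 1))) +
        (C * ε * J + 4 * (b * Fintype.card ι) *
          (x * (y / d) ^ ((1 / 2 : ℝ) ^ B.card) + d / n) * J) := by ring
  have h6 : 0 ≤ C * ε * J + 4 * (b * Fintype.card ι) *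
      (x * (y / d) ^ ((1 / 2 : ℝ) ^ B.card) + d / n) * J := by
    have hy : 0 < y := hx.trans_le hxy
    have : 0 ≤ (y / d) ^ ((1 / 2 : ℝ) ^ B.card) := Real.rpow_nonneg (by positivity) _
    positivity
  rw [e]
  linarith

open Classical in
/-- Few bad points of a grid. -/
theorem few (n : ℕ) (f : ℕ → ℕ → ℝ) (h0 : ∀ k < n, ∀ l < n, 0 ≤ f k l) {A δ : ℝ} (hδ : 0 < δ)
    (h : (1 / (n : ℝ)) * ∑ k ∈ Finset.range n, (1 / (n : ℝ)) * ∑ l ∈ Finset.range n, f k l ≤ A) :
    ((((Finset.range n ×ˢ Finset.range n).filter fun z : ℕ × ℕ => δ < f z.1 z.2).card : ℕ) : ℝ) ≤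
      A / δ * (n : ℝ) ^ 2 := by
  rcases Nat.eq_zero_or_pos n with hn | hn
  · subst hn
    simp
  have hn' : (0 : ℝ) < n := by exact_mod_cast hn
  have h1 : ∑ z ∈ Finset.range n ×ˢ Finset.range n, f z.1 z.2 ≤ A * (n : ℝ) ^ 2 := by
    rw [Finset.sum_product]
    have e : (1 / (n : ℝ)) * ∑ k ∈ Finset.range n, (1 / (n : ℝ)) * ∑ l ∈ Finset.range n, f k l =
        (∑ k ∈ Finset.range n, ∑ l ∈ Finset.range n, f k l) / (n : ℝ) ^ 2 := by
      rw [← Finset.mul_sum]
      field_simp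
    rw [e, div_le_iff₀ (by positivity)] at h
    exact h
  obtain ⟨Bd, hBd⟩ : ∃ Bd : Finset (ℕ × ℕ), Bd = (Finset.range n ×ˢ Finset.range n).filter
    fun z : ℕ × ℕ => δ < f z.1 z.2 := ⟨_, rfl⟩
  rw [← hBd]
  have h2 : (Bd.card : ℝ) * δ ≤ ∑ z ∈ Finset.range n ×ˢ Finset.range n, f z.1 z.2 := by
    have h3 : (Bd.card : ℝ) * δ ≤ ∑ z ∈ Bd, f z.1 z.2 := by
      rw [← nsmul_eq_mul]
      refine Finset.card_nsmul_le_sum _ _ _ fun z hz => ?_
      rw [hBd] at hz
      exact (Finset.mem_filter.1 hz).2.le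
    refine h3.trans (Finset.sum_le_sum_of_subset_of_nonneg ?_ fun z hz _ => ?_)
    · rw [hBd]
      exact Finset.filter_subset _ _
    · rw [Finset.mem_product, Finset.mem_range, Finset.mem_range] at hz
      exact h0 _ hz.1 _ hz.2
  rw [div_mul_eq_mul_div, le_div_iff₀ hδ]
  exact h2.trans h1

open Classical in
/-- **All but few grid points are good for finitely many calls.** -/
theorem calls {κ : Type} [Fintype κ] (n : ℕ) (f : κ → ℕ → ℕ → ℝ)
    (h0 : ∀ q, ∀ k < n, ∀ l < n, 0 ≤ f q k l) {A δ : ℝ} (hδ : 0 < δ)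
    (h : ∀ q, (1 / (n : ℝ)) * ∑ k ∈ Finset.range n, (1 / (n : ℝ)) * ∑ l ∈ Finset.range n,
      f q k l ≤ A) :
    ∃ Bd : Finset (ℕ × ℕ), Bd ⊆ Finset.range n ×ˢ Finset.range n ∧
      (Bd.card : ℝ) ≤ Fintype.card κ * (A / δ) * (n : ℝ) ^ 2 ∧
      ∀ k < n, ∀ l < n, (k, l) ∉ Bd → ∀ q, f q k l ≤ δ := by
  refine ⟨(Finset.univ : Finset κ).biUnion fun q =>
    (Finset.range n ×ˢ Finset.range n).filter fun z : ℕ × ℕ => δ < f q z.1 z.2, ?_, ?_, ?_⟩
  · intro z hz
    rw [Finset.mem_biUnion] at hz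
    obtain ⟨q, -, hq⟩ := hz
    exact (Finset.mem_filter.1 hq).1
  · have h1 : ((((Finset.univ : Finset κ).biUnion fun q =>
        (Finset.range n ×ˢ Finset.range n).filter fun z : ℕ × ℕ => δ < f q z.1 z.2).card : ℕ) : ℝ)
        ≤ ∑ q : κ, ((((Finset.range n ×ˢ Finset.range n).filter
          fun z : ℕ × ℕ => δ < f q z.1 z.2).card : ℕ) : ℝ) := by
      exact_mod_cast Finset.card_biUnion_le
    refine h1.trans ((Finset.sum_le_card_nsmul _ _ (A / δ * (n : ℝ) ^ 2) fun q _ =>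
      few n (f q) (h0 q) hδ (h q)).trans (le_of_eq ?_))
    rw [nsmul_eq_mul, Finset.card_univ]
    ring
  · intro k hk l hl hkl q
    by_contra hcon
    push Not at hcon
    refine hkl (Finset.mem_biUnion.2 ⟨q, Finset.mem_univ _, Finset.mem_filter.2 ⟨?_, hcon⟩⟩)
    exact Finset.mem_product.2 ⟨Finset.mem_range.2 hk, Finset.mem_range.2 hl⟩

end Pool.GEN.LLF
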