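import Pool.Agent.H7.GEN.Nst

/-!
# Level lines for one law

For nested digits of one law and levels which are affine functions of two parameters, the mean
over a mesh of the mutual information of the next digits of a lower set of slopes and of the next
digits of the other data, given the digits at the natural levels, is small.
-/

set_option autoImplicit false
set_option linter.unusedSectionVars false
set_option linter.unusedVariables false

namespace Pool.GEN.LLF

open Finset Real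
open Pool.Agent.H49.Ent Pool.Agent.H32.Dense Pool.GEN.LL

/-! ### Riemann sums -/

theorem riem {G : ℝ → ℝ} (hG : Continuous G) {Λ : ℝ} (hΛ : 0 ≤ Λ)
    (hL : ∀ s s', G s ≤ G s' + Λ * |s - s'|) {n : ℕ} (hn : 0 < n) :
    (1 / (n : ℝ)) * ∑ k ∈ Finset.range n, G ((k : ℝ) / n) ≤ (∫ s in (0 : ℝ)..1, G s) + Λ / n := by
  have hn' : (0 : ℝ) < n := by exact_mod_cast hn
  have h1 : ∑ k ∈ Finset.range n, ∫ s in ((k : ℝ) / n)..(((k + 1 : ℕ) : ℝ) / n), G s =
      ∫ s in ((0 : ℕ) : ℝ) / n..((n : ℕ) : ℝ) / n, G s :=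
    intervalIntegral.sum_integral_adjacent_intervals fun k _ => hG.intervalIntegrable _ _
  rw [Nat.cast_zero, zero_div, div_self hn'.ne'] at h1
  rw [← h1, Finset.mul_sum]
  have h2 : ∀ k ∈ Finset.range n, 1 / (n : ℝ) * G ((k : ℝ) / n) ≤
      (∫ s in ((k : ℝ) / n)..(((k + 1 : ℕ) : ℝ) / n), G s) + 1 / (n : ℝ) * (Λ / n) := by
    intro k _
    have hkk : ((k : ℝ) / n) ≤ (((k + 1 : ℕ) : ℝ) / n) :=
      div_le_div_of_nonneg_right (by push_cast; linarith) hn'.le
    have e1 : (((k + 1 : ℕ) : ℝ) / n) - (k : ℝ) / n = 1 / n := by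
      push_cast
      ring
    have h3 := intervalIntegral.integral_mono_on hkk
      (f := fun _ => G ((k : ℝ) / n) - Λ / n) (g := G)
      (intervalIntegrable_const (μ := MeasureTheory.volume)) (hG.intervalIntegrable _ _)
      fun s hs => by
        have h4 := hL ((k : ℝ) / n) s
        have h5 : |(k : ℝ) / n - s| ≤ 1 / n := by
          rw [abs_le]
          constructor
          · have := hs.2
            linarith
          · have := hs.1
            have : 0 ≤ 1 / (n : ℝ) := by positivity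
            linarith
        have h6 := mul_le_mul_of_nonneg_left h5 hΛ
        have h7 : Λ * (1 / n) = Λ / n := by ring
        rw [h7] at h6
        linarith
    rw [intervalIntegral.integral_const, e1, smul_eq_mul] at h3
    linarith
  refine (Finset.sum_le_sum h2).trans ?_
  rw [Finset.sum_add_distrib, Finset.sum_const, Finset.card_range, nsmul_eq_mul]
  refine add_le_add le_rfl (le_of_eq ?_)
  field_simp

/-! ### The theorem -/

variable {ι : Type} [Fintype ι] [DecidableEq ι]

/-- The affine levels. -/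
def lv (a c u : ι → ℝ) (s t : ℝ) : ι → ℝ := fun i => a i + c i * (t + u i * s)

/-- The mutual information of two blocks of digits given the natural digits. -/
noncomputable def gm (g : (ι → ℕ) → ℝ) (J : ℝ) (L α β : ι → ℝ) : ℝ :=
  g (fl J 0 (L + α)) + g (fl J 0 (L + β)) - g (fl J 0 (L + α + β)) - g (fl J 0 L)

theorem gm_le {Ω : Type*} [Fintype Ω] {S U : Type*} {p : Ω → ℝ} {D : ι → ℕ → Ω → S} {W : Ω → U}
    {b : ℝ} (hp : ∀ ω, 0 ≤ p ω) (H : Nst p D b) (hb : 0 ≤ b) {J : ℝ} (hJ : 0 < J)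
    (L α β : ι → ℝ) :
    gm (gk p D W) J L α β ≤ J * mi (hr p D W J) L α β + 2 * (b * Fintype.card ι) := by
  have h1 := gk_le_hr hp H (W := W) hJ (L + α)
  have h2 := gk_le_hr hp H (W := W) hJ (L + β)
  have h3 := hr_le_gk hp H (W := W) hb hJ (L + α + β)
  have h4 := hr_le_gk hp H (W := W) hb hJ L
  unfold gm mi
  linarith

theorem mi_lip {h : (ι → ℝ) → ℝ} {K : ℝ} (H : Lev h K) (L M a b : ι → ℝ) :
    mi h L a b ≤ mi h M a b + 4 * K * ‖L - M‖ := by
  have hK := H.K_nonneg
  have h1 := H.lips hK (L + a) (M + a)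
  have h2 := H.lips hK (L + b) (M + b)
  have h3 := H.lips hK (M + a + b) (L + a + b)
  have h4 := H.lips hK M L
  have e1 : L + a - (M + a) = L - M := by abel
  have e2 : L + b - (M + b) = L - M := by abel
  have e3 : M + a + b - (L + a + b) = M - L := by abel
  rw [e1] at h1
  rw [e2] at h2
  rw [e3, norm_sub_rev] at h3
  rw [norm_sub_rev] at h4
  unfold mi
  linarith

theorem fl_blk (J : ℝ) (hJ : 0 ≤ J) (L : ι → ℝ) (B : Finset ι) {x y : ℝ} (hx : 0 ≤ x)
    (hy : 0 ≤ y) : fl J 0 (L + blk B y + blk Bᶜ x) =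
      fl J 0 (L + blk B y) ⊔ fl J 0 (L + blk Bᶜ x) := by
  rw [← fl_sup J 0 hJ]
  congr 1
  funext i
  simp only [Pi.add_apply, Pi.sup_apply, blk, Finset.mem_compl]
  by_cases hi : i ∈ B
  · simp only [hi, if_true, not_true, if_false, add_zero]
    exact (sup_of_le_left (by linarith)).symm
  · simp only [hi, if_false, not_false_iff, if_true, add_zero]
    exact (sup_of_le_right (by linarith)).symm

/-- The mutual information as a difference of conditional entropies. -/
theorem gm_eq {Ω : Type*} [Fintype Ω] {S U : Type*} {p : Ω → ℝ} {D : ι → ℕ → Ω → S} {W : Ω → U}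
    {b : ℝ} (hp : ∀ ω, 0 ≤ p ω) (H : Nst p D b) {J : ℝ} (hJ : 0 ≤ J) (L : ι → ℝ) (B : Finset ι)
    {x y : ℝ} (hx : 0 ≤ x) (hy : 0 ≤ y) :
    gm (gk p D W) J L (blk B y) (blk Bᶜ x) =
      CH p (dg D (fl J 0 (L + blk Bᶜ x))) (fun ω => (dg D (fl J 0 L) ω, W ω)) -
      CH p (dg D (fl J 0 (L + blk Bᶜ x))) (fun ω => (dg D (fl J 0 (L + blk B y)) ω, W ω)) := by
  unfold gm
  rw [fl_blk J hJ L B hx hy]
  set ka := fl J 0 (L + blk B y)
  set kb := fl J 0 (L + blk Bᶜ x)
  set k := fl J 0 L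
  have hkb : k ≤ kb := fl_mono J 0 hJ (le_add_of_nonneg_right (blk_nonneg _ hx))
  have e1 : gk p D W (ka ⊔ kb) = CH p (fun ω => (dg D kb ω, dg D ka ω)) W := by
    refine CH_congr hp ?_ ?_ (fun _ _ _ _ h => h) (fun _ _ _ _ h => h)
    · intro ω ω' a a' e
      have e' := (Prod.ext_iff.mp e).1
      exact Prod.ext (H.det_dg (le_sup_right : kb ≤ ka ⊔ kb) ω ω' a a' e')
        (H.det_dg (le_sup_left : ka ≤ ka ⊔ kb) ω ω' a a' e')
    · intro ω ω' a a' e
      have e' := Prod.ext_iff.mp (Prod.ext_iff.mp e).1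
      refine funext fun i => ?_
      rcases le_total (ka i) (kb i) with h | h
      · have h' : (ka ⊔ kb) i = kb i := sup_eq_right.2 h
        simp only [dg, h']
        exact congrFun e'.1 i
      · have h' : (ka ⊔ kb) i = ka i := sup_eq_left.2 h
        simp only [dg, h']
        exact congrFun e'.2 i
  have e2 : gk p D W kb = CH p (fun ω => (dg D kb ω, dg D k ω)) W := by
    refine CH_congr hp ?_ ?_ (fun _ _ _ _ h => h) (fun _ _ _ _ h => h)
    · intro ω ω' a a' e
      have e' := (Prod.ext_iff.mp e).1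
      exact Prod.ext e' (H.det_dg hkb ω ω' a a' e')
    · intro ω ω' a a' e
      exact (Prod.ext_iff.mp (Prod.ext_iff.mp e).1).1
  rw [e1, e2, CH_chain hp, CH_chain hp]
  unfold gk
  ring

/-- **(LL) for one law.** Nested digits `D i k` of the data `i`, costs at most `b` per step, side
information `W`. The levels are `J (a i + c i (t + u i s))` with `c i > 0`; `B` is a lower set of
slopes. The mean over the mesh of the square of size `d` of the mutual information of the
`y J`-blocks of `B` and the `x J`-blocks of the others, given the natural digits, is at most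
`C (x (y / d) ^ β + d / n) J + C`. -/
theorem llf (c u : ι → ℝ) (hc : ∀ i, 0 < c i) (B : Finset ι)
    (hB : ∀ i ∈ B, ∀ j, j ∉ B → u i < u j) (b : ℝ) (hb : 0 ≤ b) : ∃ C : ℝ, 0 ≤ C ∧
      ∀ (Ω S U : Type) [Fintype Ω] (p : Ω → ℝ) (D : ι → ℕ → Ω → S) (W : Ω → U),
        (∀ ω, 0 ≤ p ω) → Nst p D b → ∀ J : ℝ, 0 < J → ∀ (a : ι → ℝ) (s₀ t₀ d x y : ℝ), 0 < d →
        0 < x → x ≤ y → ∀ n : ℕ, 0 < n →
        (1 / (n : ℝ)) * ∑ k ∈ Finset.range n, (1 / (n : ℝ)) * ∑ l ∈ Finset.range n,
          gm (gk p D W) J (lv a c u (s₀ + d * ((k : ℝ) / n)) (t₀ + d * ((l : ℝ) / n)))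
            (blk B y) (blk Bᶜ x) ≤
          C * (x * (y / d) ^ ((1 / 2 : ℝ) ^ B.card) + d / n) * J + C := by
  set K : ℝ := b * Fintype.card ι with hKd
  have hK : 0 ≤ K := by positivity
  obtain ⟨C, hC, hI⟩ := ll_loc (ι := ι) K c u hc B hB 1 zero_le_one
  set Λs : ℝ := ∑ i, c i * |u i| with hΛs
  set Λt : ℝ := ∑ i, c i with hΛt
  have hΛs0 : 0 ≤ Λs := Finset.sum_nonneg fun i _ => mul_nonneg (hc i).le (abs_nonneg _)
  have hΛt0 : 0 ≤ Λt := Finset.sum_nonneg fun i _ => (hc i).le
  refine ⟨max C (max (4 * K * (Λs + Λt)) (2 * K)), hC.trans (le_max_left _ _), ?_⟩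
  intro Ω S U _ p D W hp H J hJ a s₀ t₀ d x y hd hx hxy n hn
  have hn' : (0 : ℝ) < n := by exact_mod_cast hn
  set h := hr p D W J with hh
  have hLev : Lev h K := hr_lev hp H hb hJ
  set F : ℝ → ℝ → ℝ := fun s t => mi h (lv a c u (s₀ + d * s) (t₀ + d * t)) (blk B y) (blk Bᶜ x)
    with hF
  have hlvc : Continuous (Function.uncurry fun s t => lv a c u s t) := by
    refine continuous_pi fun i => ?_
    simp only [lv, Function.uncurry]
    fun_prop
  have hFc : Continuous (Function.uncurry F) := by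
    have h1 : Continuous (Function.uncurry fun s t => lv a c u (s₀ + d * s) (t₀ + d * t)) := by
      refine continuous_pi fun i => ?_
      simp only [lv, Function.uncurry]
      fun_prop
    exact cont_mi hLev h1 _ _
  have hF0 : ∀ s t, 0 ≤ F s t := fun s t => hLev.nonneg_mi _ (blk_nonneg B (hx.le.trans hxy))
    (blk_nonneg _ hx.le) (blk_dsj disjoint_compl_right _ _)
  -- Lipschitz
  have hFs : ∀ t s s', F s t ≤ F s' t + 4 * K * Λs * d * |s - s'| := by
    intro t s s'
    refine (mi_lip hLev _ (lv a c u (s₀ + d * s') (t₀ + d * t)) _ _).trans ?_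
    have h1 : ‖lv a c u (s₀ + d * s) (t₀ + d * t) - lv a c u (s₀ + d * s') (t₀ + d * t)‖ ≤
        Λs * d * |s - s'| := by
      rw [pi_norm_le_iff_of_nonneg (by positivity)]
      intro i
      have e : (lv a c u (s₀ + d * s) (t₀ + d * t) - lv a c u (s₀ + d * s') (t₀ + d * t)) i =
          c i * u i * (d * (s - s')) := by
        simp only [lv, Pi.sub_apply]
        ring
      rw [e, Real.norm_eq_abs, abs_mul, abs_mul, abs_of_pos (hc i), abs_mul, abs_of_pos hd]
      have h2 : c i * |u i| ≤ Λs := Finset.single_le_sum (f := fun i => c i * |u i|)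
        (fun i _ => mul_nonneg (hc i).le (abs_nonneg _)) (Finset.mem_univ i)
      have h3 := mul_le_mul_of_nonneg_right h2 (by positivity : 0 ≤ d * |s - s'|)
      linarith
    have h2 := mul_le_mul_of_nonneg_left h1 (by positivity : 0 ≤ 4 * K)
    linarith
  have hFt : ∀ s t t', F s t ≤ F s t' + 4 * K * Λt * d * |t - t'| := by
    intro s t t'
    refine (mi_lip hLev _ (lv a c u (s₀ + d * s) (t₀ + d * t')) _ _).trans ?_
    have h1 : ‖lv a c u (s₀ + d * s) (t₀ + d * t) - lv a c u (s₀ + d * s) (t₀ + d * t')‖ ≤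
        Λt * d * |t - t'| := by
      rw [pi_norm_le_iff_of_nonneg (by positivity)]
      intro i
      have e : (lv a c u (s₀ + d * s) (t₀ + d * t) - lv a c u (s₀ + d * s) (t₀ + d * t')) i =
          c i * (d * (t - t')) := by
        simp only [lv, Pi.sub_apply]
        ring
      rw [e, Real.norm_eq_abs, abs_mul, abs_of_pos (hc i), abs_mul, abs_of_pos hd]
      have h2 : c i ≤ Λt := Finset.single_le_sum (f := fun i => c i)
        (fun i _ => (hc i).le) (Finset.mem_univ i)
      have h3 := mul_le_mul_of_nonneg_right h2 (by positivity : 0 ≤ d * |t - t'|)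
      linarith
    have h2 := mul_le_mul_of_nonneg_left h1 (by positivity : 0 ≤ 4 * K)
    linarith
  -- the integrals
  have hGc : Continuous fun s => ∫ t in (0 : ℝ)..1, F s t :=
    intervalIntegral.continuous_parametric_intervalIntegral_of_continuous' hFc 0 1
  have hGc1 : Continuous fun s => ∫ t in (-1 : ℝ)..1, F s t :=
    intervalIntegral.continuous_parametric_intervalIntegral_of_continuous' hFc (-1) 1
  have hFi : ∀ s a' b', IntervalIntegrable (fun t => F s t) MeasureTheory.volume a' b' :=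
    fun s a' b' => Continuous.intervalIntegrable
      (hFc.comp (continuous_const.prodMk continuous_id)) _ _
  have hin : ∀ s, ∫ t in (0 : ℝ)..1, F s t ≤ ∫ t in (-1 : ℝ)..1, F s t := fun s =>
    intervalIntegral.integral_mono_interval (by norm_num) (by norm_num) le_rfl
      (Filter.Eventually.of_forall fun t => hF0 s t) (hFi s _ _)
  have hG0 : ∀ s, 0 ≤ ∫ t in (-1 : ℝ)..1, F s t := fun s =>
    intervalIntegral.integral_nonneg (by norm_num) fun t _ => hF0 s t
  have htot : ∫ s in (0 : ℝ)..1, ∫ t in (0 : ℝ)..1, F s t ≤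
      C * x * (y / d) ^ ((1 / 2 : ℝ) ^ B.card) := by
    have h1 : ∫ s in (0 : ℝ)..1, ∫ t in (0 : ℝ)..1, F s t ≤
        ∫ s in (0 : ℝ)..1, ∫ t in (-1 : ℝ)..1, F s t :=
      intervalIntegral.integral_mono_on zero_le_one (hGc.intervalIntegrable _ _)
        (hGc1.intervalIntegrable _ _) fun s _ => hin s
    have h2 : ∫ s in (0 : ℝ)..1, ∫ t in (-1 : ℝ)..1, F s t ≤
        ∫ s in (-1 : ℝ)..1, ∫ t in (-1 : ℝ)..1, F s t :=
      intervalIntegral.integral_mono_interval (by norm_num) (by norm_num) le_rfl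
        (Filter.Eventually.of_forall fun s => hG0 s) (hGc1.intervalIntegrable _ _)
    have h3 := hI h hLev a (fun s t => lv a c u s t) s₀ t₀ d x y hd hx hxy hlvc fun s t i => by
      simp only [lv, sub_self, abs_zero]
      positivity
    exact h1.trans (h2.trans h3)
  -- Riemann sums
  have hr1 : ∀ s, (1 / (n : ℝ)) * ∑ l ∈ Finset.range n, F s ((l : ℝ) / n) ≤
      (∫ t in (0 : ℝ)..1, F s t) + 4 * K * Λt * d / n := fun s =>
    riem (hFc.comp (continuous_const.prodMk continuous_id)) (by positivity) (hFt s) hn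
  have hr2 : (1 / (n : ℝ)) * ∑ k ∈ Finset.range n, (∫ t in (0 : ℝ)..1, F ((k : ℝ) / n) t) ≤
      (∫ s in (0 : ℝ)..1, ∫ t in (0 : ℝ)..1, F s t) + 4 * K * Λs * d / n := by
    refine riem hGc (by positivity) (fun s s' => ?_) hn
    have h1 := intervalIntegral.integral_mono_on (a := (0 : ℝ)) (b := 1) zero_le_one
      (hFi s 0 1) ((hFi s' 0 1).add (by simp)) (g := fun t => F s' t + 4 * K * Λs * d * |s - s'|)
      fun t _ => hFs t s s'
    rw [intervalIntegral.integral_add (hFi s' 0 1) (by simp), intervalIntegral.integral_const]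
      at h1
    simpa using h1
  have hsum : (1 / (n : ℝ)) * ∑ k ∈ Finset.range n, (1 / (n : ℝ)) * ∑ l ∈ Finset.range n,
      F ((k : ℝ) / n) ((l : ℝ) / n) ≤
      C * x * (y / d) ^ ((1 / 2 : ℝ) ^ B.card) + 4 * K * Λs * d / n + 4 * K * Λt * d / n := by
    have h1 : (1 / (n : ℝ)) * ∑ k ∈ Finset.range n, (1 / (n : ℝ)) * ∑ l ∈ Finset.range n,
        F ((k : ℝ) / n) ((l : ℝ) / n) ≤ (1 / (n : ℝ)) * ∑ k ∈ Finset.range n,
        ((∫ t in (0 : ℝ)..1, F ((k : ℝ) / n) t) + 4 * K * Λt * d / n) :=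
      mul_le_mul_of_nonneg_left (Finset.sum_le_sum fun k _ => hr1 _) (by positivity)
    rw [Finset.sum_add_distrib, Finset.sum_const, Finset.card_range, nsmul_eq_mul, mul_add]
      at h1
    have e1 : 1 / (n : ℝ) * (n * (4 * K * Λt * d / n)) = 4 * K * Λt * d / n := by
      field_simp
    rw [e1] at h1
    linarith
  have hgm : (1 / (n : ℝ)) * ∑ k ∈ Finset.range n, (1 / (n : ℝ)) * ∑ l ∈ Finset.range n,
      gm (gk p D W) J (lv a c u (s₀ + d * ((k : ℝ) / n)) (t₀ + d * ((l : ℝ) / n)))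
        (blk B y) (blk Bᶜ x) ≤ (1 / (n : ℝ)) * ∑ k ∈ Finset.range n, (1 / (n : ℝ)) *
      ∑ l ∈ Finset.range n, (J * F ((k : ℝ) / n) ((l : ℝ) / n) + 2 * K) := by
    refine mul_le_mul_of_nonneg_left (Finset.sum_le_sum fun k _ => ?_) (by positivity)
    refine mul_le_mul_of_nonneg_left (Finset.sum_le_sum fun l _ => ?_) (by positivity)
    exact gm_le hp H hb hJ _ _ _
  have e2 : (1 / (n : ℝ)) * ∑ k ∈ Finset.range n, (1 / (n : ℝ)) *
      ∑ l ∈ Finset.range n, (J * F ((k : ℝ) / n) ((l : ℝ) / n) + 2 * K) =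
      J * ((1 / (n : ℝ)) * ∑ k ∈ Finset.range n, (1 / (n : ℝ)) *
      ∑ l ∈ Finset.range n, F ((k : ℝ) / n) ((l : ℝ) / n)) + 2 * K := by
    simp only [Finset.sum_add_distrib, Finset.sum_const, Finset.card_range, nsmul_eq_mul, mul_add,
      ← Finset.mul_sum]
    field_simp
  rw [e2] at hgm
  refine hgm.trans ?_
  have h5 := mul_le_mul_of_nonneg_left hsum hJ.le
  set M := max C (max (4 * K * (Λs + Λt)) (2 * K)) with hM
  have hM1 : C ≤ M := le_max_left _ _
  have hM2 : 4 * K * (Λs + Λt) ≤ M := (le_max_left _ _).trans (le_max_right _ _)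
  have hM3 : 2 * K ≤ M := (le_max_right _ _).trans (le_max_right _ _)
  have hyd : 0 ≤ (y / d) ^ ((1 / 2 : ℝ) ^ B.card) :=
    Real.rpow_nonneg (div_nonneg (hx.le.trans hxy) hd.le) _
  have h6 : C * x * (y / d) ^ ((1 / 2 : ℝ) ^ B.card) ≤
      M * (x * (y / d) ^ ((1 / 2 : ℝ) ^ B.card)) := by
    have := mul_le_mul_of_nonneg_right hM1 (mul_nonneg hx.le hyd)
    linarith
  have h7 : 4 * K * Λs * d / n + 4 * K * Λt * d / n ≤ M * (d / n) := by
    have h8 := mul_le_mul_of_nonneg_right hM2 (by positivity : 0 ≤ d / (n : ℝ))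
    have e3 : 4 * K * Λs * d / n + 4 * K * Λt * d / n = 4 * K * (Λs + Λt) * (d / n) := by ring
    rw [e3]
    exact h8
  have h9 : J * (C * x * (y / d) ^ ((1 / 2 : ℝ) ^ B.card) + 4 * K * Λs * d / n +
      4 * K * Λt * d / n) ≤ J * (M * (x * (y / d) ^ ((1 / 2 : ℝ) ^ B.card) + d / n)) :=
    mul_le_mul_of_nonneg_left (by linarith) hJ.le
  linarith

end Pool.GEN.LLF
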