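import Pool.Agent.H32.Dense.EntX
import Pool.Agent.H41.GEN.Ll4

/-!
# Nested digits of one law

`Nst p D b`: for every index the digits `D i k` are nested in `k`, and each step costs at most `b`.
The entropy of the digits at the levels `k`, given `W`, is monotone, submodular and Lipschitz; its
average over a common shift of the levels is a function of real levels with the same properties.
-/

set_option autoImplicit false
set_option linter.unusedSectionVars false
set_option linter.unusedVariables false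

namespace Pool.GEN.LLF

open Finset Real
open Pool.Agent.H49.Ent Pool.Agent.H32.Dense Pool.GEN.LL

variable {Ω : Type*} [Fintype Ω] {ι : Type} [Fintype ι] [DecidableEq ι] {S U : Type*}
  {p : Ω → ℝ} {D : ι → ℕ → Ω → S} {W : Ω → U} {b : ℝ}

/-- Nested digits. -/
structure Nst (p : Ω → ℝ) (D : ι → ℕ → Ω → S) (b : ℝ) : Prop where
  det : ∀ i k, Det p (D i (k + 1)) (D i k)
  inc : ∀ i k, CH p (D i (k + 1)) (D i k) ≤ b

/-- The digits at the levels `k`. -/
def dg (D : ι → ℕ → Ω → S) (k : ι → ℕ) (ω : Ω) : ι → S := fun i => D i (k i) ω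

theorem Nst.det_le (H : Nst p D b) (i : ι) {k k' : ℕ} (h : k ≤ k') :
    Det p (D i k') (D i k) := by
  induction k', h using Nat.le_induction with
  | base => exact fun ω ω' _ _ h => h
  | succ n _ ih => exact fun ω ω' a a' h => ih ω ω' a a' (H.det i n ω ω' a a' h)

theorem Nst.det_dg (H : Nst p D b) {k k' : ι → ℕ} (h : k ≤ k') : Det p (dg D k') (dg D k) :=
  fun ω ω' a a' e => funext fun i => H.det_le i (h i) ω ω' a a' (congrFun e i)

/-- The entropy of the digits at the levels `k`. -/
noncomputable def gk (p : Ω → ℝ) (D : ι → ℕ → Ω → S) (W : Ω → U) (k : ι → ℕ) : ℝ :=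
  CH p (dg D k) W

theorem gk_mono (hp : ∀ ω, 0 ≤ p ω) (H : Nst p D b) : Monotone (gk p D W) := fun k k' h =>
  CH_mono_left hp fun ω ω' a a' e => H.det_dg h ω ω' a a' (Prod.ext_iff.mp e).1

theorem gk_sub (hp : ∀ ω, 0 ≤ p ω) (H : Nst p D b) (k k' : ι → ℕ) :
    gk p D W (k ⊔ k') + gk p D W (k ⊓ k') ≤ gk p D W k + gk p D W k' := by
  have h := submod hp (X := fun ω => (dg D k ω, W ω)) (Y := fun ω => (dg D k' ω, W ω))
    (Z := fun ω => (dg D (k ⊓ k') ω, W ω)) (W := fun ω => (dg D (k ⊔ k') ω, W ω))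
    (fun ω ω' a a' e => Prod.ext (H.det_dg inf_le_left ω ω' a a' (Prod.ext_iff.mp e).1)
      (Prod.ext_iff.mp e).2)
    (fun ω ω' a a' e => Prod.ext (H.det_dg inf_le_right ω ω' a a' (Prod.ext_iff.mp e).1)
      (Prod.ext_iff.mp e).2)
    (fun ω ω' a a' e => by
      have e1 := Prod.ext_iff.mp e
      have e2 := Prod.ext_iff.mp e1.1
      have e3 := Prod.ext_iff.mp e1.2
      refine Prod.ext (funext fun i => ?_) e2.2
      rcases le_total (k i) (k' i) with h | h
      · have h' : (k ⊔ k') i = k' i := sup_eq_right.2 h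
        simp only [dg, h']
        exact congrFun e3.1 i
      · have h' : (k ⊔ k') i = k i := sup_eq_left.2 h
        simp only [dg, h']
        exact congrFun e2.1 i)
  unfold gk CH
  linarith

theorem gk_step (hp : ∀ ω, 0 ≤ p ω) (H : Nst p D b) (k : ι → ℕ) (i : ι) :
    gk p D W (Function.update k i (k i + 1)) ≤ gk p D W k + b := by
  set k' := Function.update k i (k i + 1) with hk'
  have h1 : gk p D W k' ≤ CH p (dg D k) W + CH p (dg D k') (fun ω => (dg D k ω, W ω)) :=
    CH_le_add hp _ _ _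
  have h2 : CH p (dg D k') (fun ω => (dg D k ω, W ω)) ≤
      CH p (D i (k i + 1)) (fun ω => (dg D k ω, W ω)) := by
    refine CH_mono_left hp fun ω ω' a a' e => ?_
    have e1 := Prod.ext_iff.mp e
    have e2 := Prod.ext_iff.mp e1.2
    refine funext fun j => ?_
    by_cases hj : j = i
    · subst hj
      simp only [dg, hk', Function.update_self]
      exact e1.1
    · simp only [dg, hk', Function.update_of_ne hj]
      exact congrFun e2.1 j
  have h3 : CH p (D i (k i + 1)) (fun ω => (dg D k ω, W ω)) ≤ CH p (D i (k i + 1)) (D i (k i)) :=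
    CH_mono_cond hp fun ω ω' a a' e => congrFun (Prod.ext_iff.mp e).1 i
  have h4 := H.inc i (k i)
  unfold gk at h1 ⊢
  linarith

theorem gk_steps (hp : ∀ ω, 0 ≤ p ω) (H : Nst p D b) (i : ι) (n : ℕ) (k : ι → ℕ) :
    gk p D W (Function.update k i (k i + n)) ≤ gk p D W k + b * n := by
  induction n with
  | zero =>
    rw [add_zero, Function.update_eq_self, Nat.cast_zero, mul_zero, add_zero]
  | succ n ih =>
    have h := gk_step (W := W) hp H (Function.update k i (k i + n)) i
    rw [Function.update_self, Function.update_idem] at h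
    have e : k i + (n + 1) = k i + n + 1 := by ring
    rw [e]
    push_cast
    linarith

theorem gk_lip (hp : ∀ ω, 0 ≤ p ω) (H : Nst p D b) {k k' : ι → ℕ} (h : k ≤ k') :
    gk p D W k' ≤ gk p D W k + b * ∑ i, ((k' i : ℝ) - k i) := by
  have h1 : ∀ A : Finset ι, gk p D W (fun i => if i ∈ A then k' i else k i) ≤
      gk p D W k + b * ∑ i ∈ A, ((k' i : ℝ) - k i) := by
    intro A
    induction A using Finset.induction_on with
    | empty => simp
    | insert j A hj ih =>
      rw [Finset.sum_insert hj]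
      have e : (fun i => if i ∈ insert j A then k' i else k i) =
          Function.update (fun i => if i ∈ A then k' i else k i) j
            ((fun i => if i ∈ A then k' i else k i) j + (k' j - k j)) := by
        funext i
        by_cases hi : i = j
        · subst hi
          simp only [Function.update_self, Finset.mem_insert_self, if_true, if_neg hj]
          have h0 : k i ≤ k' i := h i
          omega
        · rw [Function.update_of_ne hi]
          simp only [Finset.mem_insert, hi, false_or]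
      rw [e]
      have h2 := gk_steps (W := W) hp H j (k' j - k j) (fun i => if i ∈ A then k' i else k i)
      rw [Nat.cast_sub (h j)] at h2
      linarith
  have h2 := h1 Finset.univ
  simpa using h2

/-! ### Real levels -/

/-- The integer levels of real levels. -/
noncomputable def fl (J θ : ℝ) (L : ι → ℝ) : ι → ℕ := fun i => ⌊L i * J + θ⌋₊

theorem fl_mono (J θ : ℝ) (hJ : 0 ≤ J) : Monotone (fl (ι := ι) J θ) := fun _ _ h i =>
  Nat.floor_mono (by have := mul_le_mul_of_nonneg_right (h i) hJ; linarith)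

theorem fl_sup (J θ : ℝ) (hJ : 0 ≤ J) (L M : ι → ℝ) : fl J θ (L ⊔ M) = fl J θ L ⊔ fl J θ M := by
  funext i
  have hm : Monotone fun r : ℝ => ⌊r * J + θ⌋₊ := fun r r' h =>
    Nat.floor_mono (by have := mul_le_mul_of_nonneg_right h hJ; linarith)
  exact hm.map_max

theorem fl_inf (J θ : ℝ) (hJ : 0 ≤ J) (L M : ι → ℝ) : fl J θ (L ⊓ M) = fl J θ L ⊓ fl J θ M := by
  funext i
  have hm : Monotone fun r : ℝ => ⌊r * J + θ⌋₊ := fun r r' h =>
    Nat.floor_mono (by have := mul_le_mul_of_nonneg_right h hJ; linarith)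
  exact hm.map_min

theorem fl_theta (J : ℝ) {θ θ' : ℝ} (h : θ ≤ θ') (L : ι → ℝ) : fl J θ L ≤ fl J θ' L := fun i =>
  Nat.floor_mono (by linarith)

/-- The averaged entropy, as a function of real levels. -/
noncomputable def hr (p : Ω → ℝ) (D : ι → ℕ → Ω → S) (W : Ω → U) (J : ℝ) (L : ι → ℝ) : ℝ :=
  (∫ θ in (0 : ℝ)..1, gk p D W (fl J θ L)) / J

theorem hr_int (hp : ∀ ω, 0 ≤ p ω) (H : Nst p D b) (J : ℝ) (L : ι → ℝ) :
    IntervalIntegrable (fun θ => gk p D W (fl J θ L)) MeasureTheory.volume 0 1 := by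
  have : Monotone fun θ => gk p D W (fl J θ L) := fun θ θ' h => gk_mono hp H (fl_theta J h L)
  exact this.intervalIntegrable

theorem floor_intg (y : ℝ) : IntervalIntegrable (fun θ : ℝ => ((⌊y + θ⌋ : ℤ) : ℝ))
    MeasureTheory.volume 0 1 := by
  have : Monotone fun θ : ℝ => ((⌊y + θ⌋ : ℤ) : ℝ) := by
    intro θ θ' h
    have h1 : ⌊y + θ⌋ ≤ ⌊y + θ'⌋ := Int.floor_mono (by linarith)
    exact Int.cast_le.2 h1
  exact this.intervalIntegrable

theorem floor_int (x r : ℝ) :
    ∫ θ in (0 : ℝ)..1, ((⌊x + r + θ⌋ : ℝ) - ⌊x + θ⌋) = r := by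
  have hi := floor_intg
  have h1 : ∀ y : ℝ, ∫ θ in (0 : ℝ)..1, ((⌊y + θ⌋ : ℤ) : ℝ) =
      y + 1 / 2 - ∫ θ in (0 : ℝ)..1, Int.fract θ := by
    intro y
    have e1 : ∀ θ : ℝ, ((⌊y + θ⌋ : ℤ) : ℝ) = (y + θ) - Int.fract (y + θ) := fun θ => by
      rw [Int.fract]
      ring
    have hf : IntervalIntegrable (fun θ : ℝ => Int.fract (y + θ)) MeasureTheory.volume 0 1 := by
      have e2 : (fun θ : ℝ => Int.fract (y + θ)) = fun θ => (y + θ) - ((⌊y + θ⌋ : ℤ) : ℝ) := by
        funext θ
        rw [Int.fract]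
      rw [e2]
      exact (Continuous.intervalIntegrable (by fun_prop) _ _).sub (hi y)
    simp only [e1]
    rw [intervalIntegral.integral_sub (Continuous.intervalIntegrable (by fun_prop) _ _) hf]
    have e3 : ∫ θ in (0 : ℝ)..1, (y + θ) = y + 1 / 2 := by
      rw [intervalIntegral.integral_add (by simp) (by simp), intervalIntegral.integral_const,
        integral_id]
      norm_num
    have e4 : ∫ θ in (0 : ℝ)..1, Int.fract (y + θ) = ∫ θ in (0 : ℝ)..1, Int.fract θ := by
      rw [intervalIntegral.integral_comp_add_left (fun θ => Int.fract θ) y, add_zero]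
      have hper : Function.Periodic (Int.fract : ℝ → ℝ) 1 := Int.fract_periodic ℝ
      have := hper.intervalIntegral_add_eq y 0
      rw [zero_add] at this
      exact this
    rw [e3, e4]
  rw [intervalIntegral.integral_sub (hi (x + r)) (hi x), h1, h1]
  ring

theorem nat_floor_sub (y : ℝ) {r : ℝ} (hr : 0 ≤ r) :
    ((⌊y + r⌋₊ : ℝ) - ⌊y⌋₊) ≤ (⌊y + r⌋ : ℝ) - ⌊y⌋ := by
  have e : ∀ z : ℝ, ((⌊z⌋₊ : ℕ) : ℝ) = max ((⌊z⌋ : ℤ) : ℝ) 0 := by
    intro z
    rw [← Int.floor_toNat]
    have : ((⌊z⌋.toNat : ℕ) : ℤ) = max ⌊z⌋ 0 := Int.toNat_eq_max _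
    calc ((⌊z⌋.toNat : ℕ) : ℝ) = (((⌊z⌋.toNat : ℕ) : ℤ) : ℝ) := by push_cast; rfl
      _ = ((max ⌊z⌋ 0 : ℤ) : ℝ) := by rw [this]
      _ = max ((⌊z⌋ : ℤ) : ℝ) 0 := by push_cast; rfl
  rw [e, e]
  have hm : (⌊y⌋ : ℝ) ≤ ⌊y + r⌋ := by exact_mod_cast Int.floor_mono (by linarith)
  rcases le_total (0 : ℝ) (⌊y⌋ : ℝ) with h | h
  · rw [max_eq_left h, max_eq_left (h.trans hm)]
  · rw [max_eq_right h]
    rcases le_total (0 : ℝ) (⌊y + r⌋ : ℝ) with h' | h'
    · rw [max_eq_left h']
      linarith
    · rw [max_eq_right h']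
      linarith

theorem hr_lev (hp : ∀ ω, 0 ≤ p ω) (H : Nst p D b) (hb : 0 ≤ b) {J : ℝ} (hJ : 0 < J) :
    Lev (hr p D W J) (b * Fintype.card ι) := by
  have hJ' := hJ.le
  refine ⟨fun L M h => ?_, fun L M => ?_, fun L s hs => ?_⟩
  · unfold hr
    refine div_le_div_of_nonneg_right ?_ hJ'
    exact intervalIntegral.integral_mono_on zero_le_one (hr_int hp H J L) (hr_int hp H J M)
      fun θ _ => gk_mono hp H (fl_mono J θ hJ' h)
  · unfold hr
    rw [← add_div, ← add_div]
    refine div_le_div_of_nonneg_right ?_ hJ'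
    rw [← intervalIntegral.integral_add (hr_int hp H J _) (hr_int hp H J _),
      ← intervalIntegral.integral_add (hr_int hp H J _) (hr_int hp H J _)]
    refine intervalIntegral.integral_mono_on zero_le_one
      ((hr_int hp H J _).add (hr_int hp H J _)) ((hr_int hp H J _).add (hr_int hp H J _))
      fun θ _ => ?_
    rw [fl_sup J θ hJ', fl_inf J θ hJ']
    exact gk_sub hp H _ _
  · unfold hr
    have h1 : ∀ θ, gk p D W (fl J θ fun i => L i + s) ≤ gk p D W (fl J θ L) +
        b * ∑ i : ι, ((⌊L i * J + s * J + θ⌋ : ℝ) - ⌊L i * J + θ⌋) := by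
      intro θ
      have hle : fl J θ L ≤ fl J θ fun i => L i + s := fl_mono J θ hJ' fun i => by
        change L i ≤ L i + s
        linarith
      refine (gk_lip hp H hle).trans ?_
      have : b * ∑ i : ι, (((fl J θ fun i => L i + s) i : ℝ) - (fl J θ L) i) ≤
          b * ∑ i : ι, ((⌊L i * J + s * J + θ⌋ : ℝ) - ⌊L i * J + θ⌋) := by
        refine mul_le_mul_of_nonneg_left (Finset.sum_le_sum fun i _ => ?_) hb
        have h2 := nat_floor_sub (L i * J + θ) (r := s * J) (by positivity)
        have e1 : (L i + s) * J + θ = L i * J + θ + s * J := by ring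
        have e2 : L i * J + s * J + θ = L i * J + θ + s * J := by ring
        simp only [fl]
        rw [e1, e2]
        exact h2
      linarith
    have hi : ∀ i : ι, IntervalIntegrable
        (fun θ : ℝ => ((⌊L i * J + s * J + θ⌋ : ℝ) - ⌊L i * J + θ⌋)) MeasureTheory.volume 0 1 := by
      intro i
      exact (floor_intg _).sub (floor_intg _)
    have hs' : IntervalIntegrable
        (fun θ : ℝ => ∑ i : ι, ((⌊L i * J + s * J + θ⌋ : ℝ) - ⌊L i * J + θ⌋))
        MeasureTheory.volume 0 1 := by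
      have := IntervalIntegrable.sum (μ := MeasureTheory.volume) (a := (0 : ℝ)) (b := 1)
        Finset.univ (f := fun (i : ι) (θ : ℝ) => ((⌊L i * J + s * J + θ⌋ : ℝ) - ⌊L i * J + θ⌋))
        fun i _ => hi i
      refine this.congr fun θ _ => ?_
      simp only [Finset.sum_apply]
    have h2 := intervalIntegral.integral_mono_on zero_le_one
      (hr_int hp H (W := W) J fun i => L i + s)
      ((hr_int hp H (W := W) J L).add (hs'.const_mul b)) fun θ _ => h1 θ
    rw [intervalIntegral.integral_add (hr_int hp H J L) (hs'.const_mul b),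
      intervalIntegral.integral_const_mul, intervalIntegral.integral_finsetSum fun i _ => hi i]
      at h2
    simp only [floor_int, Finset.sum_const, Finset.card_univ, nsmul_eq_mul] at h2
    rw [div_le_iff₀ hJ, add_mul, div_mul_cancel₀ _ hJ.ne']
    refine h2.trans (le_of_eq ?_)
    ring

/-- The averaged entropy and the entropy at the integer levels. -/
theorem gk_le_hr (hp : ∀ ω, 0 ≤ p ω) (H : Nst p D b) {J : ℝ} (hJ : 0 < J) (L : ι → ℝ) :
    gk p D W (fl J 0 L) ≤ J * hr p D W J L := by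
  unfold hr
  rw [mul_div_cancel₀ _ hJ.ne']
  have h := intervalIntegral.integral_mono_on (a := (0 : ℝ)) (b := 1) zero_le_one
    (f := fun _ => gk p D W (fl J 0 L)) (by simp) (hr_int hp H (W := W) J L)
    fun θ hθ => gk_mono hp H (fl_theta J hθ.1 L)
  simpa using h

theorem hr_le_gk (hp : ∀ ω, 0 ≤ p ω) (H : Nst p D b) (hb : 0 ≤ b) {J : ℝ} (hJ : 0 < J)
    (L : ι → ℝ) :
    J * hr p D W J L ≤ gk p D W (fl J 0 L) + b * Fintype.card ι := by
  unfold hr
  rw [mul_div_cancel₀ _ hJ.ne']
  have h := intervalIntegral.integral_mono_on (a := (0 : ℝ)) (b := 1) zero_le_one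
    (hr_int hp H (W := W) J L) (g := fun _ => gk p D W (fl J 0 L) + b * Fintype.card ι) (by simp)
    fun θ hθ => by
      refine (gk_lip hp H (fl_theta J hθ.1 L)).trans ?_
      have : ∑ i : ι, (((fl J θ L) i : ℝ) - (fl J 0 L) i) ≤ ∑ _i : ι, (1 : ℝ) := by
        refine Finset.sum_le_sum fun i _ => ?_
        have h1 : ⌊L i * J + θ⌋₊ ≤ ⌊L i * J + 0⌋₊ + 1 := by
          rw [add_zero]
          rcases le_or_gt 0 (L i * J) with h0 | h0
          · rw [← Nat.floor_add_one h0]
            exact Nat.floor_mono (by linarith [hθ.2])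
          · have : ⌊L i * J + θ⌋₊ ≤ ⌊(1 : ℝ)⌋₊ := Nat.floor_mono (by linarith [hθ.2])
            rw [Nat.floor_one] at this
            omega
        have h2 : ((⌊L i * J + θ⌋₊ : ℕ) : ℝ) ≤ (⌊L i * J + 0⌋₊ : ℕ) + 1 := by exact_mod_cast h1
        simp only [fl]
        linarith
      rw [Finset.sum_const, Finset.card_univ, nsmul_eq_mul, mul_one] at this
      have h3 := mul_le_mul_of_nonneg_left this hb
      linarith
  simpa using h

end Pool.GEN.LLF
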